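import Pool.Agent.K3h39.KR.Stm
import Pool.Agent.R478.BES.CharSum
import Pool.Agent.R478.BES.Mats2

/-! Brick D for helper39 (MP_2c585b_nt Q2): counting the values of `R`. -/

set_option autoImplicit false

namespace Pool.Agent.K3h73.KR

open Finset Pool.Agent.K3h39.KR Pool.Agent.R478.BES

section

variable {F : Type} [Field F] [Fintype F] [DecidableEq F] {e : AddChar F ℂ} {J : F → ℂ}

omit [Fintype F] [DecidableEq F] in
theorem exists_unit {a : F} (ha : a ≠ 0) : ∃ u : Fˣ, (u : F) = a := ⟨Units.mk0 a ha, rfl⟩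

theorem sum_J_mul (h : Bes e J) {c : F} (hc : c ≠ 0) : ∑ t : Fˣ, J (t * c) = -1 := by
  obtain ⟨c, rfl⟩ := exists_unit hc
  rw [← h.J0]
  exact Fintype.sum_equiv (Equiv.mulRight c) _ _ fun t => by simp

theorem J1' (h : Bes e J) {a b : F} (ha : a ≠ 0) (hb : b ≠ 0) :
    ∑ y : Fˣ, J (a * y) * J (b * y) = if a = b then 1 else 0 := by
  obtain ⟨a, rfl⟩ := exists_unit ha
  obtain ⟨b, rfl⟩ := exists_unit hb
  rw [h.J1 a b]
  simp only [Units.val_inj]

theorem J2' (h : Bes e J) {a b c : F} (ha : a ≠ 0) (hb : b ≠ 0) (hc : c ≠ 0) :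
    ∑ y : Fˣ, e (c * y) * (J (a * y) * J (b * y)) = e ((a + b) / c) * J (a * b / c ^ 2) := by
  obtain ⟨a, rfl⟩ := exists_unit ha
  obtain ⟨b, rfl⟩ := exists_unit hb
  obtain ⟨c, rfl⟩ := exists_unit hc
  have h1 := h.J2 (a * c⁻¹) (b * c⁻¹)
  have h2 : ∑ y : Fˣ, e (c * y) * (J (a * y) * J (b * y)) =
      ∑ y : Fˣ, e y * (J (((a * c⁻¹ : Fˣ) : F) * y) * J (((b * c⁻¹ : Fˣ) : F) * y)) := by
    refine Fintype.sum_equiv (Equiv.mulLeft c) _ _ fun y => ?_
    simp only [Equiv.coe_mulLeft, Units.val_mul, Units.val_inv_eq_inv_val]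
    have hc' : (c : F) ≠ 0 := c.ne_zero
    congr 3 <;> field_simp
  rw [h2, h1]
  simp only [Units.val_mul, Units.val_inv_eq_inv_val]
  congr 2 <;> ring

/-- the kernel `L`. -/
def LL (e : AddChar F ℂ) (J : F → ℂ) (x X Y : F) : ℂ := e ((X + Y) / x) * J (X * Y / x ^ 2)

omit [Fintype F] [DecidableEq F] in
theorem LL_comm (x X Y : F) : LL e J x X Y = LL e J x Y X := by
  unfold LL
  rw [add_comm, mul_comm X Y]

variable [CharP F 2]

theorem LL_sq (h : Bes e J) {x : F} (hx : x ≠ 0) (X Z : Fˣ) :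
    ∑ Y : Fˣ, LL e J x X Y * LL e J x Y Z = if X = Z then 1 else 0 := by
  have hX : (X : F) ≠ 0 := X.ne_zero
  have hZ : (Z : F) ≠ 0 := Z.ne_zero
  have h1 : ∀ Y : Fˣ, LL e J x X Y * LL e J x Y Z =
      e ((X + Z) / x) * (J ((X / x ^ 2) * Y) * J ((Z / x ^ 2) * Y)) := by
    intro Y
    unfold LL
    have e1 : e (((X : F) + Y) / x) * e (((Y : F) + Z) / x) = e ((X + Z) / x) := by
      rw [← AddChar.map_add_eq_mul]
      congr 1
      have h2 : (Y : F) + Y = 0 := CharTwo.add_self_eq_zero _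
      linear_combination (1 / x) * h2
    rw [← e1]
    have e2 : (X : F) * Y / x ^ 2 = X / x ^ 2 * Y := by ring
    have e3 : (Y : F) * Z / x ^ 2 = Z / x ^ 2 * Y := by ring
    rw [e2, e3]
    ring
  simp only [h1]
  rw [← Finset.mul_sum, J1' h (div_ne_zero hX (pow_ne_zero 2 hx))
    (div_ne_zero hZ (pow_ne_zero 2 hx))]
  by_cases hXZ : X = Z
  · subst hXZ
    rw [if_pos rfl, if_pos rfl, CharTwo.add_self_eq_zero, zero_div, AddChar.map_zero_eq_one,
      one_mul]
  · rw [if_neg hXZ, if_neg, mul_zero]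
    intro h2
    apply hXZ
    ext
    field_simp at h2
    exact h2

variable (φ : F ≃+* F)

/-- the automorphism on the units. -/
def phiU : Fˣ ≃ Fˣ := (Units.mapEquiv φ.toMulEquiv).toEquiv

omit [Fintype F] [DecidableEq F] [CharP F 2] in
theorem phiU_coe (x : Fˣ) : ((phiU φ x : Fˣ) : F) = φ x := rfl

/-- the trace identity. -/
theorem trace_id (h : Bes e J) (he : ∀ x, e (φ x) = e x) (hJ : ∀ x, J (φ x) = J x)
    {x : F} (hx : x ≠ 0) (A : Fˣ → Fˣ → ℂ) :
    ∑ X : Fˣ, ∑ W : Fˣ, ∑ Y : Fˣ, LL e J x X Y * A Y W * LL e J (φ x) W (φ X) =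
      ∑ Y : Fˣ, A Y (phiU φ Y) := by
  have h1 : ∀ X : Fˣ, ∑ W : Fˣ, ∑ Y : Fˣ, LL e J x X Y * A Y W * LL e J (φ x) W (φ X) =
      ∑ W : Fˣ, ∑ Y : Fˣ, A Y (phiU φ W) * (LL e J x W X * LL e J x X Y) := by
    intro X
    symm
    refine Fintype.sum_equiv (phiU φ) _ _ fun W => ?_
    refine Finset.sum_congr rfl fun Y _ => ?_
    have h2 : LL e J (φ x) ((phiU φ W : Fˣ) : F) (φ X) = LL e J x W X := by
      unfold LL
      rw [phiU_coe, ← map_add, ← map_div₀, he, ← map_mul, ← map_pow, ← map_div₀, hJ]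
    rw [h2]
    ring
  simp only [h1]
  rw [Finset.sum_comm]
  have h3 : ∀ W : Fˣ, ∑ X : Fˣ, ∑ Y : Fˣ, A Y (phiU φ W) * (LL e J x W X * LL e J x X Y) =
      ∑ Y : Fˣ, A Y (phiU φ W) * if W = Y then 1 else 0 := by
    intro W
    rw [Finset.sum_comm]
    refine Finset.sum_congr rfl fun Y _ => ?_
    rw [← Finset.mul_sum, LL_sq h hx]
  simp only [h3]
  simp

/-- first evaluation. -/
theorem eval_one (h : Bes e J) {t x : F} (ht : t ≠ 0) (hx : x ≠ 0) (X W : Fˣ) :
    ∑ Y : Fˣ, LL e J x X Y * (J (t * Y * W) * e W) =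
      e W * (e (t * x * W) * J (t * X * W)) := by
  have hX : (X : F) ≠ 0 := X.ne_zero
  have hW : (W : F) ≠ 0 := W.ne_zero
  have h1 : ∀ Y : Fˣ, LL e J x X Y * (J (t * Y * W) * e W) =
      e W * e (X / x) * (e (x⁻¹ * Y) * (J ((X / x ^ 2) * Y) * J ((t * W) * Y))) := by
    intro Y
    unfold LL
    have e1 : e (((X : F) + Y) / x) = e (X / x) * e (x⁻¹ * Y) := by
      rw [← AddChar.map_add_eq_mul]
      congr 1
      ring
    have e2 : (X : F) * Y / x ^ 2 = X / x ^ 2 * Y := by ring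
    have e3 : t * Y * W = t * W * Y := by ring
    rw [e1, e2, e3]
    ring
  simp only [h1]
  rw [← Finset.mul_sum, J2' h (div_ne_zero hX (pow_ne_zero 2 hx)) (mul_ne_zero ht hW)
    (inv_ne_zero hx)]
  have e4 : (X / x ^ 2 + t * W) / x⁻¹ = (X : F) / x + t * x * W := by field_simp
  have e5 : (X : F) / x ^ 2 * (t * W) / x⁻¹ ^ 2 = t * X * W := by field_simp
  rw [e4, e5, AddChar.map_add_eq_mul]
  linear_combination (e W * e (t * x * W) * J (t * X * W)) * e_self e (X / x : F)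

omit [CharP F 2] in
/-- second evaluation. -/
theorem eval_two (h : Bes e J) {t x y : F} (ht : t ≠ 0) (hy : y ≠ 0)
    (hc : t * x + 1 + y⁻¹ ≠ 0) (X Z : Fˣ) :
    ∑ W : Fˣ, e W * (e (t * x * W) * J (t * X * W)) * LL e J y W Z =
      e (Z / y + (t * X + Z / y ^ 2) / (t * x + 1 + y⁻¹)) *
        J (t * X * (Z / y ^ 2) / (t * x + 1 + y⁻¹) ^ 2) := by
  have hX : (X : F) ≠ 0 := X.ne_zero
  have hZ : (Z : F) ≠ 0 := Z.ne_zero
  have h1 : ∀ W : Fˣ, e W * (e (t * x * W) * J (t * X * W)) * LL e J y W Z =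
      e (Z / y) * (e ((t * x + 1 + y⁻¹) * W) * (J ((t * X) * W) * J ((Z / y ^ 2) * W))) := by
    intro W
    unfold LL
    have e1 : e (((W : F) + Z) / y) = e (y⁻¹ * W) * e (Z / y) := by
      rw [← AddChar.map_add_eq_mul]
      congr 1
      ring
    have e2 : (W : F) * Z / y ^ 2 = Z / y ^ 2 * W := by ring
    have e3 : e ((t * x + 1 + y⁻¹) * W) = e (t * x * W) * e (W : F) * e (y⁻¹ * W) := by
      rw [← AddChar.map_add_eq_mul, ← AddChar.map_add_eq_mul]
      congr 1
      ring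
    rw [e1, e2, e3]
    ring
  simp only [h1]
  rw [← Finset.mul_sum, J2' h (mul_ne_zero ht hX) (div_ne_zero hZ (pow_ne_zero 2 hy)) hc,
    AddChar.map_add_eq_mul]
  ring

/-- the rational function. -/
def RR (φ : F ≃+* F) (v : F) : F := φ v * (φ v + 1) / ((v + φ v) * (φ v + φ (φ v)))

/-- the sum `s`. -/
noncomputable def SS (e : AddChar F ℂ) (J : F → ℂ) (φ : F ≃+* F) (t : F) : ℂ :=
  -∑ X : Fˣ, e X * J (t * ((X : F) * φ X))

omit [Fintype F] [DecidableEq F] in
theorem add_phi_ne (hφ : ∀ x, φ x = x → x = 0 ∨ x = 1) {v : F} (h0 : v ≠ 0) (h1 : v ≠ 1) :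
    v + φ v ≠ 0 := by
  intro h
  rcases hφ v (CharTwo.add_eq_zero.1 h).symm with h2 | h2
  · exact h0 h2
  · exact h1 h2

omit [Fintype F] [DecidableEq F] in
theorem nz (hφ : ∀ x, φ x = x → x = 0 ∨ x = 1) {v : F} (h0 : v ≠ 0) (h1 : v ≠ 1) :
    v + φ v ≠ 0 ∧ φ v + φ (φ v) ≠ 0 ∧ φ v ≠ 0 ∧ φ v + 1 ≠ 0 ∧ φ (φ v) ≠ 0 := by
  have h2 := add_phi_ne φ hφ h0 h1
  refine ⟨h2, ?_, ?_, ?_, ?_⟩
  · rw [← map_add]
    exact (map_ne_zero φ).2 h2
  · exact (map_ne_zero φ).2 h0
  · have h3 : φ v + 1 = φ (v + 1) := by rw [map_add, map_one]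
    rw [h3]
    refine (map_ne_zero φ).2 fun h4 => h1 ?_
    exact CharTwo.add_eq_zero.1 h4
  · exact (map_ne_zero φ).2 ((map_ne_zero φ).2 h0)

omit [Fintype F] [DecidableEq F] in
theorem RR_ne (hφ : ∀ x, φ x = x → x = 0 ∨ x = 1) {v : F} (h0 : v ≠ 0) (h1 : v ≠ 1) :
    RR φ v ≠ 0 := by
  obtain ⟨g1, g2, g3, g4, -⟩ := nz φ hφ h0 h1
  exact div_ne_zero (mul_ne_zero g3 g4) (mul_ne_zero g1 g2)

/-- (D1) -/
theorem SS_value (h : Bes e J) (he : ∀ x, e (φ x) = e x) (hJ : ∀ x, J (φ x) = J x)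
    (hφ : ∀ x, φ x = x → x = 0 ∨ x = 1)
    (hinj : Function.Injective fun x : Fˣ => (x : F) * φ x) {v : F} (h0 : v ≠ 0) (h1 : v ≠ 1) :
    SS e J φ (RR φ v) = 1 := by
  obtain ⟨g1, g2, g3, g4, g5⟩ := nz φ hφ h0 h1
  set t := RR φ v with ht
  have ht0 : t ≠ 0 := RR_ne φ hφ h0 h1
  set x : F := (v + φ v) / φ v with hx
  have hx0 : x ≠ 0 := div_ne_zero g1 g3
  have hφx : φ x = (φ v + φ (φ v)) / φ (φ v) := by rw [hx, map_div₀, map_add]
  have hy0 : φ x ≠ 0 := (map_ne_zero φ).2 hx0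
  have h2 : (2 : F) = 0 := CharTwo.two_eq_zero
  have hc : t * x + 1 + (φ x)⁻¹ = (φ v + φ (φ v))⁻¹ := by
    rw [hφx, hx, ht, RR]
    field_simp
    linear_combination (φ v + φ (φ v)) * h2
  have hc0 : t * x + 1 + (φ x)⁻¹ ≠ 0 := by
    rw [hc]
    exact inv_ne_zero g2
  have key := trace_id φ h he hJ hx0 (fun Y W : Fˣ => J (t * Y * W) * e W)
  have hl : ∀ X : Fˣ, ∑ W : Fˣ, ∑ Y : Fˣ, LL e J x X Y * (J (t * Y * W) * e W) *
      LL e J (φ x) W (φ X) = J (t * φ (φ v) ^ 2 * ((X : F) * φ X)) := by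
    intro X
    have h3 : ∀ W : Fˣ, ∑ Y : Fˣ, LL e J x X Y * (J (t * Y * W) * e W) *
        LL e J (φ x) W (φ X) = e W * (e (t * x * W) * J (t * X * W)) *
        LL e J (φ x) W ((phiU φ X : Fˣ) : F) := by
      intro W
      rw [← Finset.sum_mul, eval_one h ht0 hx0, phiU_coe]
    simp only [h3]
    rw [eval_two h ht0 hy0 hc0, hc, phiU_coe]
    set z : F := X * (φ v * (φ v + 1) / (v + φ v)) with hz
    have e1 : φ X / φ x + (t * X + φ X / φ x ^ 2) / (φ v + φ (φ v))⁻¹ = z + φ z := by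
      rw [hz, hφx, ht, RR]
      simp only [map_mul, map_div₀, map_add, map_one]
      field_simp
      ring
    have e2 : e (z + φ z) = 1 := by
      rw [AddChar.map_add_eq_mul, he, e_self]
    rw [e1, e2, one_mul]
    congr 1
    rw [hφx]
    field_simp
  simp only [hl] at key
  have h4 : ∑ X : Fˣ, J (t * φ (φ v) ^ 2 * ((X : F) * φ X)) = -1 := by
    rw [← h.J0]
    have hd : t * φ (φ v) ^ 2 ≠ 0 := mul_ne_zero ht0 (pow_ne_zero 2 g5)
    obtain ⟨d, hd'⟩ := exists_unit hd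
    have hinj' : Function.Injective fun X : Fˣ => d * (X * phiU φ X) := by
      intro X Y hXY
      apply hinj
      have h5 : X * phiU φ X = Y * phiU φ Y := mul_left_cancel hXY
      have h6 := congrArg (fun u : Fˣ => (u : F)) h5
      simpa only [Units.val_mul, phiU_coe] using h6
    refine Fintype.sum_equiv (Equiv.ofBijective _ (Finite.injective_iff_bijective.1 hinj')) _ _
      fun X => ?_
    simp only [Equiv.ofBijective_apply, Units.val_mul, phiU_coe, hd']
  have h5 : ∑ Y : Fˣ, J (t * Y * ((phiU φ Y : Fˣ) : F)) * e ((phiU φ Y : Fˣ) : F) =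
      ∑ X : Fˣ, e X * J (t * ((X : F) * φ X)) := by
    refine Finset.sum_congr rfl fun X _ => ?_
    rw [phiU_coe, he, mul_comm, mul_assoc]
  unfold SS
  rw [← h5, ← key, h4, neg_neg]

omit [CharP F 2] in
/-- (D0) the sum of `s`. -/
theorem sum_SS (h : Bes e J) (hne : e ≠ 1) : ∑ t : Fˣ, SS e J φ t = -1 := by
  unfold SS
  rw [Finset.sum_neg_distrib, Finset.sum_comm]
  have h1 : ∀ X : Fˣ, ∑ t : Fˣ, e X * J (t * ((X : F) * φ X)) = -e (1 * (X : F)) := by
    intro X
    have hX : (X : F) * φ X ≠ 0 := mul_ne_zero X.ne_zero ((map_ne_zero φ).2 X.ne_zero)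
    rw [← Finset.mul_sum, sum_J_mul h hX, one_mul]
    ring
  simp only [h1]
  rw [Finset.sum_neg_distrib, sum_units_e e hne 1]
  simp

/-- (D0) the sum of the squares. -/
theorem sum_SS_sq (h : Bes e J) (hinj : Function.Injective fun x : Fˣ => (x : F) * φ x) :
    ∑ t : Fˣ, SS e J φ t * SS e J φ t = (Fintype.card F : ℂ) - 1 := by
  unfold SS
  have h1 : ∀ t : Fˣ, (-∑ X : Fˣ, e X * J (t * ((X : F) * φ X))) *
      (-∑ X : Fˣ, e X * J (t * ((X : F) * φ X))) =
      ∑ X : Fˣ, ∑ Y : Fˣ, e X * e Y * (J (((X : F) * φ X) * t) * J (((Y : F) * φ Y) * t)) := by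
    intro t
    rw [neg_mul_neg, Finset.sum_mul_sum]
    refine Finset.sum_congr rfl fun X _ => Finset.sum_congr rfl fun Y _ => ?_
    rw [mul_comm (t : F) ((X : F) * φ X), mul_comm (t : F) ((Y : F) * φ Y)]
    ring
  simp only [h1]
  rw [Finset.sum_comm]
  have h2 : ∀ X : Fˣ, ∑ t : Fˣ, ∑ Y : Fˣ,
      e X * e Y * (J (((X : F) * φ X) * t) * J (((Y : F) * φ Y) * t)) = 1 := by
    intro X
    rw [Finset.sum_comm]
    have h3 : ∀ Y : Fˣ, ∑ t : Fˣ, e X * e Y * (J (((X : F) * φ X) * t) *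
        J (((Y : F) * φ Y) * t)) = e X * e Y * if X = Y then 1 else 0 := by
      intro Y
      have hX : (X : F) * φ X ≠ 0 := mul_ne_zero X.ne_zero ((map_ne_zero φ).2 X.ne_zero)
      have hY : (Y : F) * φ Y ≠ 0 := mul_ne_zero Y.ne_zero ((map_ne_zero φ).2 Y.ne_zero)
      rw [← Finset.mul_sum, J1' h hX hY]
      congr 1
      by_cases hXY : X = Y
      · rw [if_pos hXY, if_pos (by rw [hXY])]
      · rw [if_neg hXY, if_neg fun h4 => hXY (hinj h4)]
    simp only [h3]
    simp [e_self]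
  simp only [h2]
  rw [Finset.sum_const, Finset.card_univ, Fintype.card_units, nsmul_eq_mul, mul_one,
    Nat.cast_sub Fintype.card_pos]
  simp

theorem SS_real (h : Bes e J) (t : F) : (starRingEnd ℂ) (SS e J φ t) = SS e J φ t := by
  unfold SS
  rw [map_neg, map_sum]
  congr 1
  refine Finset.sum_congr rfl fun X _ => ?_
  rw [map_mul, e_conj, h.real]

omit [Fintype F] [DecidableEq F] in
theorem RR_add_one (v : F) : RR φ (v + 1) = RR φ v := by
  have h2 : (2 : F) = 0 := CharTwo.two_eq_zero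
  unfold RR
  simp only [map_add, map_one]
  have e1 : (φ v + 1) * (φ v + 1 + 1) = φ v * (φ v + 1) := by
    linear_combination (φ v + 1) * h2
  have e2 : v + 1 + (φ v + 1) = v + φ v := by linear_combination h2
  have e3 : φ v + 1 + (φ (φ v) + 1) = φ v + φ (φ v) := by linear_combination h2
  rw [e1, e2, e3]

omit [Fintype F] [DecidableEq F] in
/-- (D2) -/
theorem RR_fibre (hφ : ∀ x, φ x = x → x = 0 ∨ x = 1) {v w : F} (h0 : v ≠ 0) (h1 : v ≠ 1)
    (k0 : w ≠ 0) (k1 : w ≠ 1) (hR : RR φ v = RR φ w) : w = v ∨ w = v + 1 := by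
  have h2 : (2 : F) = 0 := CharTwo.two_eq_zero
  -- the pair of `v`
  have hpair : ∀ {v : F}, v ≠ 0 → v ≠ 1 → ∃ p p' : F, p ≠ 0 ∧ p' ≠ 0 ∧
      p * (v + φ v) = φ v ∧ (p + p') * (v + φ v) = 1 ∧
      (φ p + 1) * p' = RR φ v ∧ (φ p' + 1) * p = RR φ v := by
    intro v h0 h1
    obtain ⟨g1, g2, g3, g4, g5⟩ := nz φ hφ h0 h1
    refine ⟨φ v / (v + φ v), (φ v + 1) / (v + φ v), div_ne_zero g3 g1, div_ne_zero g4 g1,
      ?_, ?_, ?_, ?_⟩
    · field_simp
    · field_simp
      linear_combination φ v * h2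
    · unfold RR
      simp only [map_div₀]
      simp only [map_add]
      field_simp
      linear_combination (φ (φ v)) * h2
    · unfold RR
      simp only [map_div₀, map_add, map_one]
      field_simp
      linear_combination (φ (φ v)) * h2
  obtain ⟨p, p', hp, hp', hpb, hpp, hR1, hR2⟩ := hpair h0 h1
  obtain ⟨q, q', hq, hq', hqb, hqq, hR3, hR4⟩ := hpair k0 k1
  rw [← hR] at hR3 hR4
  set t := RR φ v with ht
  have ht0 : t ≠ 0 := RR_ne φ hφ h0 h1
  -- the four identities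
  have i1 : φ (p + q) * (p' * q') = t * (p' + q') := by
    rw [map_add]
    linear_combination q' * hR1 + p' * hR3 - (p' * q') * h2
  have i2 : φ (p' + q') * (p * q) = t * (p + q) := by
    rw [map_add]
    linear_combination q * hR2 + p * hR4 - (p * q) * h2
  have i3 : φ (p + q') * (p' * q) = t * (q + p') := by
    rw [map_add]
    linear_combination q * hR1 + p' * hR4 - (p' * q) * h2
  have i4 : φ (p' + q) * (p * q') = t * (p + q') := by
    rw [map_add]
    linear_combination q' * hR2 + p * hR3 - (p * q') * h2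
  have s1 : p + p' ≠ 0 := by
    intro h3
    rw [h3, zero_mul] at hpp
    exact zero_ne_one hpp
  have s2 : q + q' ≠ 0 := by
    intro h3
    rw [h3, zero_mul] at hqq
    exact zero_ne_one hqq
  -- the cases
  have caseA : p = q → p' = q' → w = v := by
    intro e1 e2
    have e3 : (v + φ v) = (w + φ w) := by
      have : (p + p') * (v + φ v) = (p + p') * (w + φ w) := by
        rw [hpp, e1, e2, hqq]
      exact mul_left_cancel₀ s1 this
    have e4 : φ v = φ w := by rw [← hpb, ← hqb, e1, e3]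
    exact (φ.injective e4).symm
  have caseB : p = q' → p' = q → w = v + 1 := by
    intro e1 e2
    have e3 : (v + φ v) = (w + φ w) := by
      have : (p + p') * (v + φ v) = (p + p') * (w + φ w) := by
        rw [hpp, e1, e2, add_comm, hqq]
      exact mul_left_cancel₀ s1 this
    have e4 : φ w = φ (v + 1) := by
      rw [map_add, map_one, ← hqb, ← hpb, ← e3]
      have e5 : (q + q') * (v + φ v) = 1 := by rw [e3, hqq]
      rw [e1]
      linear_combination e5 - q' * (v + φ v) * h2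
    exact φ.injective e4
  by_cases hN : (p + q) * (p' + q') = 0
  · left
    rcases mul_eq_zero.1 hN with h3 | h3
    · have h4 : p = q := CharTwo.add_eq_zero.1 h3
      rw [h3, map_zero, zero_mul] at i1
      have h5 : p' + q' = 0 := (mul_eq_zero.1 i1.symm).resolve_left ht0
      exact caseA h4 (CharTwo.add_eq_zero.1 h5)
    · have h4 : p' = q' := CharTwo.add_eq_zero.1 h3
      rw [h3, map_zero, zero_mul] at i2
      have h5 : p + q = 0 := (mul_eq_zero.1 i2.symm).resolve_left ht0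
      exact caseA (CharTwo.add_eq_zero.1 h5) h4
  by_cases hD : (p + q') * (p' + q) = 0
  · right
    rcases mul_eq_zero.1 hD with h3 | h3
    · have h4 : p = q' := CharTwo.add_eq_zero.1 h3
      rw [h3, map_zero, zero_mul] at i3
      have h5 : q + p' = 0 := (mul_eq_zero.1 i3.symm).resolve_left ht0
      exact caseB h4 (CharTwo.add_eq_zero.1 h5).symm
    · have h4 : p' = q := CharTwo.add_eq_zero.1 h3
      rw [h3, map_zero, zero_mul] at i4
      have h5 : p + q' = 0 := (mul_eq_zero.1 i4.symm).resolve_left ht0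
      exact caseB (CharTwo.add_eq_zero.1 h5) h4
  exfalso
  have hm : p * p' * (q * q') ≠ 0 := mul_ne_zero (mul_ne_zero hp hp') (mul_ne_zero hq hq')
  have j1 : φ ((p + q) * (p' + q')) * (p * p' * (q * q')) = t ^ 2 * ((p + q) * (p' + q')) := by
    rw [map_mul]
    linear_combination (φ (p' + q') * (p * q)) * i1 + (t * (p' + q')) * i2
  have j2 : φ ((p + q') * (p' + q)) * (p * p' * (q * q')) = t ^ 2 * ((p + q') * (p' + q)) := by
    rw [map_mul]
    linear_combination (φ (p' + q) * (p * q')) * i3 + (t * (q + p')) * i4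
  have hφD : φ ((p + q') * (p' + q)) ≠ 0 := (map_ne_zero φ).2 hD
  have hk : φ ((p + q) * (p' + q') / ((p + q') * (p' + q))) =
      (p + q) * (p' + q') / ((p + q') * (p' + q)) := by
    rw [map_div₀, div_eq_div_iff hφD hD]
    have j3 : (φ ((p + q) * (p' + q')) * ((p + q') * (p' + q)) -
        (p + q) * (p' + q') * φ ((p + q') * (p' + q))) * (p * p' * (q * q')) = 0 := by
      linear_combination ((p + q') * (p' + q)) * j1 - ((p + q) * (p' + q')) * j2
    exact sub_eq_zero.1 ((mul_eq_zero.1 j3).resolve_right hm)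
  rcases hφ _ hk with h3 | h3
  · exact hN ((div_eq_zero_iff.1 h3).resolve_right hD)
  · rw [div_eq_one_iff_eq hD] at h3
    have h4 : (p + p') * (q + q') = 0 := by
      linear_combination h3 + (p * q + p' * q') * h2
    rcases mul_eq_zero.1 h4 with h5 | h5
    · exact s1 h5
    · exact s2 h5

/-- the number of solutions of `RR v = t`. -/
noncomputable def nn (φ : F ≃+* F) (t : F) : ℂ :=
  ∑ v : F, if v = 0 ∨ v = 1 then 0 else if RR φ v = t then 1 else 0

/-- the number of solutions is `0`, or `2` and `s = 1`. -/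
theorem nn_cases (h : Bes e J) (he : ∀ x, e (φ x) = e x) (hJ : ∀ x, J (φ x) = J x)
    (hφ : ∀ x, φ x = x → x = 0 ∨ x = 1)
    (hinj : Function.Injective fun x : Fˣ => (x : F) * φ x) (t : F) :
    nn φ t = 0 ∨ (nn φ t = 2 ∧ SS e J φ t = 1) := by
  by_cases hex : ∃ v : F, v ≠ 0 ∧ v ≠ 1 ∧ RR φ v = t
  · right
    obtain ⟨v, h0, h1, rfl⟩ := hex
    refine ⟨?_, SS_value φ h he hJ hφ hinj h0 h1⟩
    have h3 : ∀ w : F, (if w = 0 ∨ w = 1 then (0 : ℂ) else if RR φ w = RR φ v then 1 else 0) =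
        (if w = v then 1 else 0) + if w = v + 1 then 1 else 0 := by
      intro w
      have hvv : v ≠ v + 1 := by
        intro h4
        exact one_ne_zero (left_eq_add.1 h4)
      have hv1 : v + 1 ≠ 0 := fun h4 => h1 (CharTwo.add_eq_zero.1 h4)
      have hv2 : v + 1 ≠ 1 := fun h4 => h0 (by simpa using h4)
      by_cases e1 : w = v
      · subst e1
        rw [if_neg (by tauto), if_pos rfl, if_pos rfl, if_neg hvv, add_zero]
      · by_cases e2 : w = v + 1
        · subst e2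
          rw [if_neg (by tauto), if_pos (RR_add_one φ v), if_neg e1, if_pos rfl, zero_add]
        · rw [if_neg e1, if_neg e2, add_zero]
          by_cases e3 : w = 0 ∨ w = 1
          · rw [if_pos e3]
          · rw [if_neg e3, if_neg]
            intro e4
            push Not at e3
            rcases RR_fibre φ hφ h0 h1 e3.1 e3.2 e4.symm with h5 | h5
            · exact e1 h5
            · exact e2 h5
    unfold nn
    simp only [h3]
    rw [Finset.sum_add_distrib]
    simp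
    norm_num
  · left
    unfold nn
    refine Finset.sum_eq_zero fun v _ => ?_
    split_ifs with h1 h2
    · rfl
    · exfalso
      push Not at h1
      exact hex ⟨v, h1.1, h1.2, h2⟩
    · rfl

/-- sums over the fibres. -/
theorem sum_nn (hφ : ∀ x, φ x = x → x = 0 ∨ x = 1) (g : F → ℂ) :
    ∑ t : Fˣ, nn φ t * g t = ∑ v : F, if v = 0 ∨ v = 1 then 0 else g (RR φ v) := by
  unfold nn
  simp only [Finset.sum_mul]
  rw [Finset.sum_comm]
  refine Finset.sum_congr rfl fun v _ => ?_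
  by_cases hv : v = 0 ∨ v = 1
  · simp [hv]
  · simp only [if_neg hv]
    push Not at hv
    obtain ⟨r, hr⟩ := exists_unit (RR_ne φ hφ hv.1 hv.2)
    rw [← hr]
    simp [Units.val_inj]

/-- `s + 1` is the number of solutions. -/
theorem SS_add_one (h : Bes e J) (hne : e ≠ 1) (he : ∀ x, e (φ x) = e x)
    (hJ : ∀ x, J (φ x) = J x) (hφ : ∀ x, φ x = x → x = 0 ∨ x = 1)
    (hinj : Function.Injective fun x : Fˣ => (x : F) * φ x) (t : Fˣ) :
    SS e J φ t + 1 = nn φ t := by
  have hc := nn_cases φ h he hJ hφ hinj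
  -- the sum of `nn`
  have hn : ∑ t : Fˣ, nn φ t = (Fintype.card F : ℂ) - 2 := by
    have h1 := sum_nn φ hφ (fun _ => (1 : ℂ))
    simp only [mul_one] at h1
    rw [h1]
    have h2 : ∀ v : F, (if v = 0 ∨ v = 1 then (0 : ℂ) else 1) =
        1 - (if v = 0 then 1 else 0) - if v = 1 then 1 else 0 := by
      intro v
      by_cases e1 : v = 0
      · subst e1
        simp
      · by_cases e2 : v = 1
        · subst e2
          simp
        · simp [e1, e2]
    simp only [h2, Finset.sum_sub_distrib]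
    simp
    ring
  have hreal : ∀ t : F, (starRingEnd ℂ) (nn φ t) = nn φ t := by
    intro t
    rcases hc t with h1 | ⟨h1, -⟩
    · rw [h1, map_zero]
    · rw [h1]
      exact map_ofNat _ 2
  set r : Fˣ → ℂ := fun t => SS e J φ t + 1 - nn φ t with hr
  have hrr : ∀ t, (starRingEnd ℂ) (r t) = r t := by
    intro t
    rw [hr]
    simp only [map_sub, map_add, map_one, SS_real φ h, hreal]
  have hsum : ∑ t : Fˣ, r t * r t = 0 := by
    have h1 : ∀ t : Fˣ, r t * r t = SS e J φ t * SS e J φ t + 2 * SS e J φ t + 1 -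
        2 * nn φ t := by
      intro t
      rw [hr]
      rcases hc t with h2 | ⟨h2, h3⟩
      · simp only [h2]
        ring
      · simp only [h2, h3]
        norm_num
    simp only [h1]
    rw [Finset.sum_sub_distrib, Finset.sum_add_distrib, Finset.sum_add_distrib,
      ← Finset.mul_sum, ← Finset.mul_sum, sum_SS φ h hne, sum_SS_sq φ h hinj, hn,
      Finset.sum_const, Finset.card_univ, Fintype.card_units, nsmul_eq_mul, mul_one,
      Nat.cast_sub Fintype.card_pos]
    push_cast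
    ring
  have hre : ∀ t, r t * r t = (((r t).re ^ 2 : ℝ) : ℂ) := by
    intro t
    have h1 : ((r t).re : ℂ) = r t := Complex.conj_eq_iff_re.1 (hrr t)
    push_cast
    rw [h1]
    ring
  simp only [hre] at hsum
  rw [← Complex.ofReal_sum, Complex.ofReal_eq_zero] at hsum
  have h2 := (Finset.sum_eq_zero_iff_of_nonneg (fun t _ => sq_nonneg (r t).re)).1 hsum t
    (Finset.mem_univ t)
  have h3 : (r t).re = 0 := by simpa using h2
  have h4 : ((r t).re : ℂ) = r t := Complex.conj_eq_iff_re.1 (hrr t)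
  rw [h3, Complex.ofReal_zero] at h4
  have h5 : SS e J φ t + 1 - nn φ t = 0 := h4.symm
  exact sub_eq_zero.1 h5

end

/-- Brick D. -/
theorem stmD : StmD := by
  intro F _ _ _ _ e J h1 h φ he hJ hφ _ hinj
  have hne : e ≠ 1 := by
    intro h2
    rw [h2] at h1
    simp at h1
    norm_num at h1
  have hA := sum_nn φ hφ (fun x => e x)
  have hB : ∑ t : Fˣ, nn φ t * e t = ∑ t : Fˣ, SS e J φ t * e t + ∑ t : Fˣ, e (1 * (t : F)) := by
    rw [← Finset.sum_add_distrib]
    refine Finset.sum_congr rfl fun t _ => ?_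
    rw [← SS_add_one φ h hne he hJ hφ hinj t, one_mul]
    ring
  rw [sum_units_e e hne 1, if_neg one_ne_zero, zero_sub] at hB
  have hC : ∑ t : Fˣ, SS e J φ t * e t = ∑ x : Fˣ, e x * rho e J (x * φ x) := by
    unfold SS rho
    simp only [neg_mul, mul_neg, Finset.sum_neg_distrib]
    congr 1
    simp only [Finset.sum_mul, Finset.mul_sum]
    rw [Finset.sum_comm]
    refine Finset.sum_congr rfl fun X _ => Finset.sum_congr rfl fun t _ => ?_
    ring
  have hD : ∑ v : F, (if v = 0 ∨ v = 1 then 0 else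
      e (φ v * (φ v + 1) / ((v + φ v) * (φ v + φ (φ v))))) =
      ∑ v : F, if v = 0 ∨ v = 1 then 0 else e (RR φ v) := rfl
  rw [hD, ← hA, hB, hC]
  ring

end Pool.Agent.K3h73.KR
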